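import Mathlib
import Pool.Agent.W757.RD.St4
import Pool.Agent.H790R3.RB.TMUL
import Pool.Agent.H790R3.RB.TSP
import Pool.Agent.H790R3.RB.TINF

/-! Subtask RE-SMK (owner of the project: helper757): all attracting cycles can be marked, if
infinity is not attracting. -/

set_option autoImplicit false

open Topology Filter Metric Set MeasureTheory
open Pool.Agent.H790R3.RB (CV hF cr ND wr rt Ix yx yc sp HypTop Attd Sink pr hc loc ch)
open scoped OnePoint

namespace Pool.Agent.W586.RESMK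

/-- admissible families of marked finite sinks -/
def Good (f : OnePoint ℂ → OnePoint ℂ) (s : ℕ) (p : Fin s → ℂ) : Prop :=
  (∀ k, Sink f (Function.minimalPeriod f ((p k : ℂ) : OnePoint ℂ)) ((p k : ℂ) : OnePoint ℂ)) ∧
    ∀ k k' : Fin s, ∀ m : ℕ, f^[m] ((p k : ℂ) : OnePoint ℂ) = ((p k' : ℂ) : OnePoint ℂ) → k = k'

/-- a maximal family marks all sinks -/
theorem extend {f : OnePoint ℂ → OnePoint ℂ} (hf : Continuous f)
    (hinf : ∀ p : ℕ, ¬ Sink f p ∞) {s : ℕ} {β : Fin s → ℂ}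
    (hG : Good f s β) (hmax : ∀ β' : Fin (s + 1) → ℂ, ¬ Good f (s + 1) β') {n : ℕ}
    {a : OnePoint ℂ} (ha : Sink f n a) : ∃ k, ∃ m : ℕ, f^[m] a = ((β k : ℂ) : OnePoint ℂ) := by
  by_contra hno
  push Not at hno
  obtain ⟨z, rfl⟩ : ∃ z : ℂ, (z : OnePoint ℂ) = a := by
    rcases OnePoint.ne_infty_iff_exists.mp
      (show a ≠ ∞ from fun h => hinf n (by rw [← h]; exact ha)) with ⟨z, hz⟩
    exact ⟨z, hz⟩
  apply hmax (Fin.snoc (α := fun _ => ℂ) β z)
  set β' : Fin (s + 1) → ℂ := Fin.snoc (α := fun _ => ℂ) β z with hβ'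
  have hold : ∀ i : Fin s, β' i.castSucc = β i := fun i => by simp [hβ']
  have hnew : β' (Fin.last s) = z := by simp [hβ']
  have hsz := Pool.Agent.H790R3.RB.INF.sink_min hf ha
  constructor
  · intro k
    refine Fin.lastCases ?_ ?_ k
    · rw [hnew]; exact hsz
    · intro i; rw [hold]; exact hG.1 i
  · intro k k'
    refine Fin.lastCases ?_ ?_ k
    · refine Fin.lastCases ?_ ?_ k'
      · intro m _; rfl
      · intro i m hm
        exfalso
        rw [hold, hnew] at hm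
        exact hno i m hm
    · intro i
      refine Fin.lastCases ?_ ?_ k'
      · intro m hm
        exfalso
        rw [hold, hnew] at hm
        obtain ⟨m', hm'⟩ := Pool.Agent.H790R3.RB.INF.back (hG.1 i).1 (hG.1 i).2.1 hm
        exact hno i m' hm'
      · intro j m hm
        rw [hold, hold] at hm
        rw [hG.2 i j m hm]

theorem one_ne {z : ℂ} : ((z, 1) : ℂ × ℂ) ≠ 0 := by
  intro h; have := congrArg Prod.snd h; simp at this

theorem pr_one (z : ℂ) : pr ((z, 1) : ℂ × ℂ) = (z : OnePoint ℂ) := by simp [pr]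

/-- a good family of sinks is a marked configuration -/
theorem mk_of_good {d : ℕ} (hd : 2 ≤ d) {u : Fin (2 * d) → ℂ}
    (hu : u ∈ Pool.Agent.W757.RD.U₀ d) {s : ℕ} {p : Fin s → ℂ}
    (hG : Good (sp (Pool.Agent.W757.RD.fam u)) s p) :
    Pool.Agent.W757.RD.Mk u s
      (fun k => Function.minimalPeriod (sp (Pool.Agent.W757.RD.fam u)) ((p k : ℂ) : OnePoint ℂ))
      p := by
  have hnd : ND (Pool.Agent.W757.RD.fam u) := hu.1
  obtain ⟨hfc, hit, hcr, hhc, hprc⟩ :=
    Pool.Agent.H790R3.RB.SP d (Pool.Agent.W757.RD.fam u) (by omega) hnd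
  have key : ∀ (k k' : Fin s) (m : ℕ),
      cr ((hF (Pool.Agent.W757.RD.fam u))^[m] (p k, 1)) (p k', 1) = 0 ↔
        (sp (Pool.Agent.W757.RD.fam u))^[m] ((p k : ℂ) : OnePoint ℂ) =
          ((p k' : ℂ) : OnePoint ℂ) := by
    intro k k' m
    rw [← hcr _ _ (hnd.iter_ne m one_ne) one_ne, ← hit _ one_ne, pr_one, pr_one]
  refine ⟨hu, fun k => (hG.1 k).1, fun k => (key k k _).mpr (hG.1 k).2.1, ?_, ?_⟩
  · intro k
    have h := Pool.Agent.H790R3.RB.MUL Pool.Agent.H790R3.RB.SP d (Pool.Agent.W757.RD.fam u)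
      (Function.minimalPeriod (sp (Pool.Agent.W757.RD.fam u)) ((p k : ℂ) : OnePoint ℂ)) s
      (fun k _ => p k) (some k) hd hnd (by
        have : pr (ch (fun k (_ : Unit) => p k) (some k) () 0) = ((p k : ℂ) : OnePoint ℂ) := by
          show pr ((p k + 0, 1) : ℂ × ℂ) = _
          rw [add_zero, pr_one]
        rw [this]
        exact hG.1 k)
    have e : (fun z => loc (fun k (_ : Unit) => p k) (some k) ()
        ((hF (Pool.Agent.W757.RD.fam u))^[Function.minimalPeriod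
          (sp (Pool.Agent.W757.RD.fam u)) ((p k : ℂ) : OnePoint ℂ)]
          (ch (fun k (_ : Unit) => p k) (some k) () z))) =
        fun z => rt (Pool.Agent.W757.RD.fam u) (Function.minimalPeriod
          (sp (Pool.Agent.W757.RD.fam u)) ((p k : ℂ) : OnePoint ℂ)) (p k + z) - p k := by
      funext z
      rfl
    rw [e, deriv_sub_const, deriv_comp_const_add, add_zero] at h
    exact h
  · intro k k' m hm
    have h1 := (key k k' m).mp hm
    have h2 := hG.2 k k' m h1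
    subst h2
    exact ⟨rfl, Function.IsPeriodicPt.minimalPeriod_dvd h1⟩

/-- bound for the number of marked cycles -/
theorem bound (hMARK : Pool.Agent.W757.RD.StMARK) (hGENX : Pool.Agent.W757.RD.StGENX)
    (hLNE : Pool.Agent.W757.RD.StLNE) (hNUM : Pool.Agent.W757.RD.StNUM) {d : ℕ} (hd : 2 ≤ d)
    {u : Fin (2 * d) → ℂ} (hu : u ∈ Pool.Agent.W757.RD.U₀ d) {s : ℕ} {per : Fin s → ℕ}
    {p : Fin s → ℂ} (hM : Pool.Agent.W757.RD.Mk u s per p) : s ≤ 2 * d - 2 := by
  obtain ⟨S, q₀, hext, hper, hq₀, hxq, hbq, hb, -⟩ := hMARK d {u} hd isCompact_singleton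
    (by simpa using hu) u (mem_singleton u) s per p hM
  -- a product of the periods
  set q : ℕ := ∏ k, S.per k with hq
  have hq1 : 1 ≤ q := by
    rw [hq]
    exact Nat.one_le_iff_ne_zero.mpr (Finset.prod_ne_zero_iff.mpr fun k _ =>
      Nat.one_le_iff_ne_zero.mp (S.hper k))
  obtain ⟨ε, hε, hball⟩ := Metric.isOpen_iff.mp S.hU q₀ hq₀
  obtain ⟨u', hu', hgn⟩ := hGENX d u q hd hq1 ε hε
  -- the perturbed parameter
  set q' : Fin (2 * d + s) → ℂ := Fin.addCases (motive := fun _ => ℂ) u'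
    (fun k => Pool.Agent.W757.RD.bp q₀ k) with hq'
  have hxq' : Pool.Agent.W757.RD.xp q' = u' := by
    funext i
    simp [Pool.Agent.W757.RD.xp, hq']
  have hq'U : q' ∈ S.U := by
    apply hball
    rw [mem_ball, dist_eq_norm, pi_norm_lt_iff hε]
    intro i
    refine Fin.addCases ?_ ?_ i
    · intro i
      have h1 : (q' - q₀) (Fin.castAdd s i) = (u' - u) i := by
        rw [Pi.sub_apply, Pi.sub_apply, ← hxq]
        simp [Pool.Agent.W757.RD.xp, hq']
      rw [h1]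
      exact lt_of_le_of_lt (norm_le_pi_norm _ _) hu'
    · intro k
      have h1 : (q' - q₀) (Fin.natAdd (2 * d) k) = 0 := by
        rw [Pi.sub_apply]
        simp [Pool.Agent.W757.RD.bp, hq']
      rw [h1, norm_zero]
      exact hε
  have hco : S.co q' = Pool.Agent.W757.RD.fam u' := by rw [hext.co q' hq'U, hxq']
  have hlam : ∀ k, S.lam k q' ≠ 0 := by
    refine hLNE d _ s S q q' hq'U (fun k => ?_) hq1 ?_
    · exact Finset.dvd_prod_of_mem _ (Finset.mem_univ k)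
    · rw [hco]; exact hgn.2.2
  refine hNUM d _ s S q' hq'U hlam ?_
  obtain ⟨c, -, hc⟩ := hgn.2.1
  rw [hco]
  exact ⟨c, hc⟩

/-- Subtask RE-SMK. -/
theorem task (hMARK : Pool.Agent.W757.RD.StMARK) (hGENX : Pool.Agent.W757.RD.StGENX)
    (hLNE : Pool.Agent.W757.RD.StLNE) (hNUM : Pool.Agent.W757.RD.StNUM) :
    Pool.Agent.W757.RD.StSMK := by
  intro d u hd hu hinf
  have hnd : ND (Pool.Agent.W757.RD.fam u) := hu.1
  obtain ⟨hfc, hit, hcr, hhc, hprc⟩ :=
    Pool.Agent.H790R3.RB.SP d (Pool.Agent.W757.RD.fam u) (by omega) hnd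
  have hP0 : ∃ β : Fin 0 → ℂ, Good (sp (Pool.Agent.W757.RD.fam u)) 0 β :=
    ⟨Fin.elim0, fun k => k.elim0, fun k => k.elim0⟩
  have hbd : ∀ s : ℕ, (∃ β : Fin s → ℂ, Good (sp (Pool.Agent.W757.RD.fam u)) s β) →
      s ≤ 2 * d - 2 := by
    rintro s ⟨β, hβ⟩
    exact bound hMARK hGENX hLNE hNUM hd hu (mk_of_good hd hu hβ)
  obtain ⟨s, ⟨β, hG⟩, hmax⟩ : ∃ s : ℕ,
      (∃ β : Fin s → ℂ, Good (sp (Pool.Agent.W757.RD.fam u)) s β) ∧
      ∀ β' : Fin (s + 1) → ℂ, ¬ Good (sp (Pool.Agent.W757.RD.fam u)) (s + 1) β' := by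
    classical
    by_contra hno
    push Not at hno
    have hall : ∀ s : ℕ, ∃ β : Fin s → ℂ, Good (sp (Pool.Agent.W757.RD.fam u)) s β := by
      intro s
      induction s with
      | zero => exact hP0
      | succ s ih => exact hno s ih
    have := hbd (2 * d - 2 + 1) (hall _)
    omega
  refine ⟨s, _, β, mk_of_good hd hu hG, ?_⟩
  intro S q hext _hper hq hxq hb ζ hζ
  obtain ⟨n', a, hsink, hta⟩ := hζ
  obtain ⟨k, m, hkm⟩ := extend hfc hinf hG hmax hsink
  have h1 : Tendsto (fun j : ℕ => (sp (Pool.Agent.W757.RD.fam u))^[m]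
      ((sp (Pool.Agent.W757.RD.fam u))^[n' * j] (ζ : OnePoint ℂ)))
      atTop (𝓝 ((β k : ℂ) : OnePoint ℂ)) := by
    rw [← hkm]
    exact ((hfc.iterate m).tendsto a).comp hta
  have hnb : ((↑) : ℂ → OnePoint ℂ) '' (ball (β k) (S.r₀ k)) ∈ 𝓝 ((β k : ℂ) : OnePoint ℂ) := by
    apply (OnePoint.isOpen_image_coe.mpr isOpen_ball).mem_nhds
    exact ⟨β k, mem_ball_self (S.hr₀ k), rfl⟩
  obtain ⟨j, hj⟩ := (h1.eventually hnb).exists
  rw [← Function.iterate_add_apply] at hj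
  rw [← pr_one, hit _ one_ne] at hj
  set M := m + n' * j with hM
  have hFne : (hF (Pool.Agent.W757.RD.fam u))^[M] (ζ, 1) ≠ 0 := hnd.iter_ne M one_ne
  obtain ⟨z, hz, hzj⟩ := hj
  rw [← pr_one z] at hzj
  have h4 : cr ((hF (Pool.Agent.W757.RD.fam u))^[M] (ζ, 1)) (z, 1) = 0 :=
    (hcr _ _ hFne one_ne).mp hzj.symm
  obtain ⟨a', ha', h5⟩ := (Pool.Agent.H790R3.RB.cr_eq_zero_iff hFne one_ne).mp h4
  refine ⟨k, M, a', z - β k, ha', by simpa [dist_eq_norm] using hz, ?_⟩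
  show (hF (S.co q))^[M] (ζ, 1) = a' • ((S.b k q + (z - β k), 1) : ℂ × ℂ)
  rw [hext.co q hq, hxq, h5, hb k]
  simp

end Pool.Agent.W586.RESMK
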