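import Mathlib

set_option autoImplicit false

namespace Pool.Agent.W586.Illum

open Set Finset

abbrev E := EuclideanSpace ℝ (Fin 3)

/-- `f` is a nonzero functional which is at most `M` on `K`. -/
def Supp (K : Set E) (f : E →L[ℝ] ℝ) (M : ℝ) : Prop := f ≠ 0 ∧ ∀ y ∈ K, f y ≤ M

/-- `a` and `x` lie in a common supporting plane of `K`. -/
def Cof (K : Set E) (a x : E) : Prop :=
  ∃ f : E →L[ℝ] ℝ, ∃ M, Supp K f M ∧ f a = M ∧ f x = M

lemma cof_of_not {K : Set E} (hc : Convex ℝ K) (hi : (interior K).Nonempty)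
    {a x : E} (ha : a ∈ K) (hx : x ∈ K)
    (h : ¬ ∃ ε : ℝ, 0 < ε ∧ ε < 1 ∧ (1 - ε) • x + ε • a ∈ interior K) : Cof K a x := by
  have hz : (1 - (1/2 : ℝ)) • x + (1/2 : ℝ) • a ∉ interior K := fun hz =>
    h ⟨1/2, by norm_num, by norm_num, hz⟩
  set z := (1 - (1/2 : ℝ)) • x + (1/2 : ℝ) • a with hzdef
  obtain ⟨f, hf⟩ := geometric_hahn_banach_open_point hc.interior isOpen_interior hz
  have hK : ∀ y ∈ K, f y ≤ f z := by
    have h1 : closure (interior K) ⊆ {y | f y ≤ f z} := by
      apply closure_minimal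
      · intro y hy
        exact (hf y hy).le
      · exact isClosed_le f.continuous continuous_const
    have h2 : closure (interior K) = closure K :=
      hc.closure_interior_eq_closure_of_nonempty_interior hi
    intro y hy
    exact h1 (h2 ▸ subset_closure hy)
  have hne : f ≠ 0 := by
    rintro rfl
    obtain ⟨y, hy⟩ := hi
    have := hf y hy
    simp at this
  have hfz : f z = (1/2) * f x + (1/2) * f a := by
    rw [hzdef]
    simp only [map_add, map_smul, smul_eq_mul]
    ring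
  have h1 := hK a ha
  have h2 := hK x hx
  exact ⟨f, f z, ⟨hne, hK⟩, by linarith, by linarith⟩

lemma not_cof_of {K : Set E} {a x : E}
    (h : ∃ ε : ℝ, 0 < ε ∧ ε < 1 ∧ (1 - ε) • x + ε • a ∈ interior K) : ¬ Cof K a x := by
  rintro ⟨f, M, ⟨hf0, hfM⟩, ha, hx⟩
  obtain ⟨ε, h0, h1, hz⟩ := h
  set z := (1 - ε) • x + ε • a with hzdef
  have hfz : f z = M := by
    rw [hzdef]
    simp only [map_add, map_smul, smul_eq_mul, ha, hx]
    ring
  have hmax : IsLocalMax f z := by
    have : ∀ᶠ y in nhds z, y ∈ interior K := isOpen_interior.mem_nhds hz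
    filter_upwards [this] with y hy
    rw [hfz]
    exact hfM y (interior_subset hy)
  exact hf0 (hmax.hasFDerivAt_eq_zero f.hasFDerivAt)

/-- the median of three real numbers -/
def med (c : Fin 3 → ℝ) : ℝ := max (min (c 0) (c 1)) (min (max (c 0) (c 1)) (c 2))

lemma continuous_med : Continuous med := by
  unfold med
  fun_prop

lemma med_neg (c : Fin 3 → ℝ) : med (-c) = - med c := by
  unfold med
  simp only [Pi.neg_apply]
  rcases le_total (c 0) (c 1) with h1 | h1 <;> rcases le_total (c 1) (c 2) with h2 | h2 <;>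
    rcases le_total (c 0) (c 2) with h3 | h3 <;>
    simp [h1, h2, h3] <;> linarith

lemma med_spec (c : Fin 3 → ℝ) : ∃ i0 i1 i2 : Fin 3, i0 ≠ i1 ∧ i0 ≠ i2 ∧ i1 ≠ i2 ∧
    c i0 ≤ c i1 ∧ c i1 ≤ c i2 ∧ c i1 = med c := by
  unfold med
  rcases le_total (c 0) (c 1) with h1 | h1 <;> rcases le_total (c 1) (c 2) with h2 | h2 <;>
    rcases le_total (c 0) (c 2) with h3 | h3
  · exact ⟨0, 1, 2, by decide, by decide, by decide, h1, h2, by simp [h1, h2]⟩
  · exact ⟨0, 1, 2, by decide, by decide, by decide, h1, h2, by simp [h1, h2]⟩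
  · exact ⟨0, 2, 1, by decide, by decide, by decide, h3, h2, by simp [h1, h2, h3]⟩
  · exact ⟨2, 0, 1, by decide, by decide, by decide, h3, h1, by simp [h1, h2, h3]⟩
  · exact ⟨1, 0, 2, by decide, by decide, by decide, h1, h3, by simp [h1, h3]⟩
  · exact ⟨1, 2, 0, by decide, by decide, by decide, h2, h3, by simp [h1, h2, h3]⟩
  · exact ⟨1, 0, 2, by decide, by decide, by decide, h1, h3, by simp [h1, h3]⟩
  · exact ⟨2, 1, 0, by decide, by decide, by decide, h2, h1, by simp [h1, h2, h3]⟩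

lemma sum_three {M : Type*} [AddCommMonoid M] {i0 i1 i2 : Fin 3} (h01 : i0 ≠ i1) (h02 : i0 ≠ i2)
    (h12 : i1 ≠ i2) (g : Fin 3 → M) : ∑ i, g i = g i0 + g i1 + g i2 := by
  have : (Finset.univ : Finset (Fin 3)) = {i0, i1, i2} := by
    revert i0 i1 i2; decide
  rw [this, Finset.sum_insert (by simp [h01, h02]), Finset.sum_insert (by simp [h12]),
    Finset.sum_singleton, add_assoc]

lemma three_cases {i0 i1 i2 : Fin 3} (h01 : i0 ≠ i1) (h02 : i0 ≠ i2)
    (h12 : i1 ≠ i2) (i : Fin 3) : i = i0 ∨ i = i1 ∨ i = i2 := by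
  revert i0 i1 i2 i; decide

/-- a nontrivial affine dependency with equal medians -/
lemma exists_dep (a x : Fin 3 → E) : ∃ α ξ : Fin 3 → ℝ, (α ≠ 0 ∨ ξ ≠ 0) ∧ med α = med ξ ∧
    ∑ i, α i • a i + ∑ j, ξ j • x j = 0 ∧ ∑ i, α i + ∑ j, ξ j = 0 := by
  classical
  let L : ((Fin 3 → ℝ) × (Fin 3 → ℝ)) →ₗ[ℝ] (E × ℝ) :=
    { toFun := fun c => (∑ i, c.1 i • a i + ∑ j, c.2 j • x j, ∑ i, c.1 i + ∑ j, c.2 j)
      map_add' := by
        intro c d
        ext1
        · simp only [Prod.fst_add, Prod.snd_add, Pi.add_apply, add_smul, Finset.sum_add_distrib]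
          abel
        · simp only [Prod.fst_add, Prod.snd_add, Pi.add_apply, Finset.sum_add_distrib]
          ring
      map_smul' := by
        intro r c
        ext1
        · simp only [Prod.smul_fst, Prod.smul_snd, Pi.smul_apply, smul_eq_mul, RingHom.id_apply,
            smul_add, Finset.smul_sum, smul_smul]
        · simp only [Prod.smul_fst, Prod.smul_snd, Pi.smul_apply, smul_eq_mul, RingHom.id_apply,
            mul_add, Finset.mul_sum] }
  have hfr : Module.finrank ℝ (LinearMap.range L) + Module.finrank ℝ (LinearMap.ker L) =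
      Module.finrank ℝ ((Fin 3 → ℝ) × (Fin 3 → ℝ)) := LinearMap.finrank_range_add_finrank_ker L
  have h6 : Module.finrank ℝ ((Fin 3 → ℝ) × (Fin 3 → ℝ)) = 6 := by simp
  have h4 : Module.finrank ℝ (LinearMap.range L) ≤ 4 := by
    calc Module.finrank ℝ (LinearMap.range L) ≤ Module.finrank ℝ (E × ℝ) :=
          Submodule.finrank_le _
      _ = 4 := by simp
  have h2 : 2 ≤ Module.finrank ℝ (LinearMap.ker L) := by omega
  have hrank : 1 < Module.rank ℝ (LinearMap.ker L) := by
    rw [← Module.finrank_eq_rank]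
    exact_mod_cast h2
  have hconn := isConnected_compl_singleton_of_one_lt_rank hrank 0
  let g : LinearMap.ker L → ℝ := fun c => med c.1.1 - med c.1.2
  have hg : Continuous g := by
    have h1 : Continuous fun c : LinearMap.ker L => c.1.1 := by fun_prop
    have h2 : Continuous fun c : LinearMap.ker L => c.1.2 := by fun_prop
    exact (continuous_med.comp h1).sub (continuous_med.comp h2)
  have hodd : ∀ c, g (-c) = - g c := by
    intro c
    simp only [g, NegMemClass.coe_neg, Prod.fst_neg, Prod.snd_neg, med_neg]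
    ring
  obtain ⟨v, hv⟩ := hconn.nonempty
  have key : ∃ c : LinearMap.ker L, c ≠ 0 ∧ g c = 0 := by
    have hv' : -v ∈ ({0}ᶜ : Set (LinearMap.ker L)) := by
      simpa using hv
    rcases le_total (g v) 0 with h | h
    · have h0 : (0 : ℝ) ∈ Set.Icc (g v) (g (-v)) := ⟨h, by rw [hodd]; linarith⟩
      obtain ⟨c, hc, hc0⟩ := hconn.isPreconnected.intermediate_value hv hv' hg.continuousOn h0
      exact ⟨c, hc, hc0⟩
    · have h0 : (0 : ℝ) ∈ Set.Icc (g (-v)) (g v) := ⟨by rw [hodd]; linarith, h⟩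
      obtain ⟨c, hc, hc0⟩ := hconn.isPreconnected.intermediate_value hv' hv hg.continuousOn h0
      exact ⟨c, hc, hc0⟩
  obtain ⟨c, hc, hc0⟩ := key
  have hker : L c.1 = 0 := c.2
  refine ⟨c.1.1, c.1.2, ?_, by simpa [g, sub_eq_zero] using hc0, congrArg Prod.fst hker,
    congrArg Prod.snd hker⟩
  by_contra hcon
  push Not at hcon
  apply hc
  apply Subtype.ext
  exact Prod.ext hcon.1 hcon.2

/-- Claim B -/
lemma claimB {K : Set E} (a x : Fin 3 → E) (ha : Function.Injective a)
    (hx : Function.Injective x) (hax : ∀ i j, a i ≠ x j) (haK : ∀ i, a i ∈ K) (hxK : ∀ i, x i ∈ K)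
    (hcof : ∀ i j, Cof K (a i) (x j)) :
    ∃ i i' j j', i ≠ i' ∧ j ≠ j' ∧ ∃ f M, Supp K f M ∧ f (a i) = M ∧ f (a i') = M ∧
      f (x j) = M ∧ f (x j') = M := by
  obtain ⟨α, ξ, hne, hmed, hsum, hsum0⟩ := exists_dep a x
  obtain ⟨i0, i1, i2, hi01, hi02, hi12, hα1, hα2, hα⟩ := med_spec α
  obtain ⟨j0, j1, j2, hj01, hj02, hj12, hξ1, hξ2, hξ⟩ := med_spec ξ
  rw [sum_three hi01 hi02 hi12, sum_three hj01 hj02 hj12] at hsum hsum0
  have hval : ∀ (f : E →L[ℝ] ℝ) (M : ℝ), α i0 * (f (a i0) - M) + α i1 * (f (a i1) - M) +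
      α i2 * (f (a i2) - M) + ξ j0 * (f (x j0) - M) + ξ j1 * (f (x j1) - M) +
      ξ j2 * (f (x j2) - M) = 0 := by
    intro f M
    have h1 := congrArg f hsum
    simp only [map_add, map_smul, map_zero, smul_eq_mul] at h1
    linear_combination h1 - M * hsum0
  -- first kind
  have case1 : α i1 ≤ 0 → α i0 < 0 → ξ j0 < 0 → ∃ i i' j j', i ≠ i' ∧ j ≠ j' ∧
      ∃ f M, Supp K f M ∧ f (a i) = M ∧ f (a i') = M ∧ f (x j) = M ∧ f (x j') = M := by
    intro hm h0 h0'
    obtain ⟨f, M, hf, hfa, hfx⟩ := hcof i2 j2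
    have h := hval f M
    have t0 : 0 ≤ α i0 * (f (a i0) - M) :=
      mul_nonneg_of_nonpos_of_nonpos h0.le (by linarith [hf.2 _ (haK i0)])
    have t1 : 0 ≤ α i1 * (f (a i1) - M) :=
      mul_nonneg_of_nonpos_of_nonpos hm (by linarith [hf.2 _ (haK i1)])
    have s0 : 0 ≤ ξ j0 * (f (x j0) - M) :=
      mul_nonneg_of_nonpos_of_nonpos h0'.le (by linarith [hf.2 _ (hxK j0)])
    have s1 : 0 ≤ ξ j1 * (f (x j1) - M) :=
      mul_nonneg_of_nonpos_of_nonpos (by linarith) (by linarith [hf.2 _ (hxK j1)])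
    rw [hfa, hfx] at h
    have e1 : α i0 * (f (a i0) - M) = 0 := by linarith
    have e2 : ξ j0 * (f (x j0) - M) = 0 := by linarith
    have e1' : f (a i0) = M := by
      rcases mul_eq_zero.1 e1 with h | h <;> linarith
    have e2' : f (x j0) = M := by
      rcases mul_eq_zero.1 e2 with h | h <;> linarith
    exact ⟨i0, i2, j0, j2, hi02, hj02, f, M, hf, e1', hfa, e2', hfx⟩
  have case2 : 0 ≤ α i1 → 0 < α i2 → 0 < ξ j2 → ∃ i i' j j', i ≠ i' ∧ j ≠ j' ∧
      ∃ f M, Supp K f M ∧ f (a i) = M ∧ f (a i') = M ∧ f (x j) = M ∧ f (x j') = M := by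
    intro hm h0 h0'
    obtain ⟨f, M, hf, hfa, hfx⟩ := hcof i0 j0
    have h := hval f M
    have t0 : α i2 * (f (a i2) - M) ≤ 0 :=
      mul_nonpos_of_nonneg_of_nonpos h0.le (by linarith [hf.2 _ (haK i2)])
    have t1 : α i1 * (f (a i1) - M) ≤ 0 :=
      mul_nonpos_of_nonneg_of_nonpos hm (by linarith [hf.2 _ (haK i1)])
    have s0 : ξ j2 * (f (x j2) - M) ≤ 0 :=
      mul_nonpos_of_nonneg_of_nonpos h0'.le (by linarith [hf.2 _ (hxK j2)])
    have s1 : ξ j1 * (f (x j1) - M) ≤ 0 :=
      mul_nonpos_of_nonneg_of_nonpos (by linarith) (by linarith [hf.2 _ (hxK j1)])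
    rw [hfa, hfx] at h
    have e1 : α i2 * (f (a i2) - M) = 0 := by linarith
    have e2 : ξ j2 * (f (x j2) - M) = 0 := by linarith
    have e1' : f (a i2) = M := by
      rcases mul_eq_zero.1 e1 with h | h <;> linarith
    have e2' : f (x j2) = M := by
      rcases mul_eq_zero.1 e2 with h | h <;> linarith
    exact ⟨i0, i2, j0, j2, hi02, hj02, f, M, hf, hfa, e1', hfx, e2'⟩
  rcases lt_trichotomy (α i1) 0 with hm | hm | hm
  · exact case1 hm.le (by linarith) (by linarith)
  · -- median zero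
    have hm' : ξ j1 = 0 := by linarith
    by_cases c1 : α i0 < 0 ∧ ξ j0 < 0
    · exact case1 hm.le c1.1 c1.2
    by_cases c2 : 0 < α i2 ∧ 0 < ξ j2
    · exact case2 hm.ge c2.1 c2.2
    exfalso
    have a0 : α i0 ≤ 0 := by linarith
    have a2 : 0 ≤ α i2 := by linarith
    have x0 : ξ j0 ≤ 0 := by linarith
    have x2 : 0 ≤ ξ j2 := by linarith
    rw [hm, hm'] at hsum hsum0
    simp only [zero_smul, add_zero] at hsum hsum0
    have hz : ¬ (α i0 = 0 ∧ α i2 = 0 ∧ ξ j0 = 0 ∧ ξ j2 = 0) := by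
      rintro ⟨b0, b2, y0, y2⟩
      rcases hne with h | h
      · apply h; funext i
        rcases three_cases hi01 hi02 hi12 i with h' | h' | h' <;> rw [h'] <;> assumption
      · apply h; funext i
        rcases three_cases hj01 hj02 hj12 i with h' | h' | h' <;> rw [h'] <;> assumption
    have p1 : α i0 = 0 ∨ ξ j0 = 0 := by
      by_contra hh
      push Not at hh
      exact c1 ⟨lt_of_le_of_ne a0 hh.1, lt_of_le_of_ne x0 hh.2⟩
    have p2 : α i2 = 0 ∨ ξ j2 = 0 := by
      by_contra hh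
      push Not at hh
      exact c2 ⟨lt_of_le_of_ne a2 (Ne.symm hh.1), lt_of_le_of_ne x2 (Ne.symm hh.2)⟩
    rcases p1 with p1 | p1 <;> rcases p2 with p2 | p2
    · -- both alphas zero
      rw [p1, p2] at hsum hsum0
      simp only [zero_smul, zero_add, add_zero] at hsum hsum0
      have e : ξ j0 = - ξ j2 := by linarith
      rw [e, neg_smul, neg_add_eq_zero] at hsum
      have hne2 : ξ j2 ≠ 0 := fun h => hz ⟨p1, p2, by rw [e, h, neg_zero], h⟩
      exact hj02 (hx (smul_right_injective E hne2 hsum))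
    · rw [p1, p2] at hsum hsum0
      simp only [zero_smul, zero_add, add_zero] at hsum hsum0
      have e : ξ j0 = - α i2 := by linarith
      rw [e, neg_smul, ← sub_eq_add_neg, sub_eq_zero] at hsum
      have hne2 : α i2 ≠ 0 := fun h => hz ⟨p1, h, by rw [e, h, neg_zero], p2⟩
      exact hax i2 j0 (smul_right_injective E hne2 hsum)
    · rw [p1, p2] at hsum hsum0
      simp only [zero_smul, zero_add, add_zero] at hsum hsum0
      have e : α i0 = - ξ j2 := by linarith
      rw [e, neg_smul, neg_add_eq_zero] at hsum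
      have hne2 : ξ j2 ≠ 0 := fun h => hz ⟨by rw [e, h, neg_zero], p2, p1, h⟩
      exact hax i0 j2 (smul_right_injective E hne2 hsum)
    · rw [p1, p2] at hsum hsum0
      simp only [zero_smul, zero_add, add_zero] at hsum hsum0
      have e : α i0 = - α i2 := by linarith
      rw [e, neg_smul, neg_add_eq_zero] at hsum
      have hne2 : α i2 ≠ 0 := fun h => hz ⟨by rw [e, h, neg_zero], h, p1, p2⟩
      exact hi02 (ha (smul_right_injective E hne2 hsum))
  · exact case2 hm.le (by linarith) (by linarith)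

/-- Lemma D: two supporting planes through `p`, `q` suffice. -/
lemma lemmaD {K : Set E} (hi : (interior K).Nonempty) {p q : E}
    (hpq : p ≠ q) (J : Finset E) (hJ : J.Nonempty) (hJK : ∀ i ∈ J, i ∈ K)
    (hatt : ∀ i ∈ J, ∃ f M, Supp K f M ∧ f p = M ∧ f q = M ∧ f i = M) :
    ∃ g M h M', (Supp K g M ∧ g p = M ∧ g q = M) ∧ (Supp K h M' ∧ h p = M' ∧ h q = M') ∧
      ∀ i ∈ J, g i = M ∨ h i = M' := by
  classical
  obtain ⟨o, ho⟩ := hi
  -- positivity at the interior point
  have hpos : ∀ f M, Supp K f M → f p = M → 0 < f (p - o) := by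
    intro f M hf hp
    rw [map_sub, hp, sub_pos]
    refine lt_of_le_of_ne (hf.2 _ (interior_subset ho)) ?_
    intro hfo
    have hmax : IsLocalMax f o := by
      have : ∀ᶠ y in nhds o, y ∈ interior K := isOpen_interior.mem_nhds ho
      filter_upwards [this] with y hy
      rw [hfo]
      exact hf.2 y (interior_subset hy)
    exact hf.1 (hmax.hasFDerivAt_eq_zero f.hasFDerivAt)
  -- normalised functionals
  have hnorm : ∀ i ∈ J, ∃ f : E →L[ℝ] ℝ, Supp K f (f p) ∧ f (p - o) = 1 ∧ f (q - p) = 0 ∧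
      f i = f p := by
    intro i hi
    obtain ⟨f, M, hf, hp, hq, hfi⟩ := hatt i hi
    have h0 := hpos f M hf hp
    refine ⟨(f (p - o))⁻¹ • f, ⟨?_, ?_⟩, ?_, ?_, ?_⟩
    · exact smul_ne_zero (inv_ne_zero h0.ne') hf.1
    · intro y hy
      simp only [_root_.smul_apply, smul_eq_mul]
      apply mul_le_mul_of_nonneg_left _ (inv_nonneg.2 h0.le)
      rw [hp]; exact hf.2 y hy
    · simp only [_root_.smul_apply, smul_eq_mul]
      exact inv_mul_cancel₀ h0.ne'
    · simp only [_root_.smul_apply, smul_eq_mul, map_sub]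
      rw [hp, hq]; simp
    · simp only [_root_.smul_apply, smul_eq_mul]
      rw [hp, hfi]
  choose! F hF1 hF2 hF3 hF4 using hnorm
  -- a third vector
  obtain ⟨i0, hi0⟩ := hJ
  have hlin : LinearIndependent ℝ ![q - p, p - o] := by
    rw [LinearIndependent.pair_iff]
    intro s t hst
    have h1 := congrArg (F i0) hst
    rw [map_add, map_smul, map_smul, hF2 i0 hi0, hF3 i0 hi0] at h1
    have ht : t = 0 := by simpa using h1
    rw [ht, zero_smul, add_zero] at hst
    rcases smul_eq_zero.1 hst with h | h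
    · exact ⟨h, ht⟩
    · exact absurd (sub_eq_zero.1 h).symm hpq
  obtain ⟨z, hz⟩ : ∃ z : E, z ∉ Submodule.span ℝ (Set.range ![q - p, p - o]) := by
    by_contra hcon
    push Not at hcon
    have htop : Submodule.span ℝ (Set.range ![q - p, p - o]) = ⊤ :=
      Submodule.eq_top_iff'.2 hcon
    have h1 : Module.finrank ℝ (Submodule.span ℝ (Set.range ![q - p, p - o])) ≤ 2 := by
      have := finrank_range_le_card (R := ℝ) ![q - p, p - o]
      simpa [Set.finrank] using this
    rw [htop, finrank_top] at h1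
    simp at h1
  have hlin3 : LinearIndependent ℝ ![z, q - p, p - o] := by
    exact linearIndependent_finCons.2 ⟨hlin, hz⟩
  have hspan : Submodule.span ℝ (Set.range ![z, q - p, p - o]) = ⊤ :=
    hlin3.span_eq_top_of_card_eq_finrank' (by simp)
  have hext : ∀ f g : E →L[ℝ] ℝ, f z = g z → f (q - p) = g (q - p) → f (p - o) = g (p - o) →
      f = g := by
    intro f g h1 h2 h3
    have : (f : E →ₗ[ℝ] ℝ) = g := by
      apply LinearMap.ext_on_range (v := ![z, q - p, p - o]) hspan
      intro i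
      fin_cases i
      · exact h1
      · exact h2
      · exact h3
    ext v
    exact congrArg (fun l : E →ₗ[ℝ] ℝ => l v) this
  obtain ⟨g, hg, hgmin⟩ := Finset.exists_min_image J (fun i => F i z) ⟨i0, hi0⟩
  obtain ⟨h, hh, hhmax⟩ := Finset.exists_max_image J (fun i => F i z) ⟨i0, hi0⟩
  refine ⟨F g, F g p, F h, F h p, ⟨hF1 g hg, rfl, ?_⟩, ⟨hF1 h hh, rfl, ?_⟩, ?_⟩
  · have := hF3 g hg
    rw [map_sub] at this; linarith
  · have := hF3 h hh
    rw [map_sub] at this; linarith
  intro i hi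
  have h1 := hgmin i hi
  have h2 := hhmax i hi
  rcases eq_or_lt_of_le (h1.trans h2) with heq | hlt
  · left
    have e : F i = F g := by
      apply hext
      · apply le_antisymm _ h1
        rw [heq]; exact h2
      · rw [hF3 i hi, hF3 g hg]
      · rw [hF2 i hi, hF2 g hg]
    rw [← e]; exact hF4 i hi
  · set lam := (F i z - F g z) / (F h z - F g z) with hlam
    have hd : 0 < F h z - F g z := by linarith
    have hl0 : 0 ≤ lam := div_nonneg (by linarith) hd.le
    have hl1 : lam ≤ 1 := by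
      rw [hlam, div_le_one hd]; linarith
    have hcomb : F i = (1 - lam) • F g + lam • F h := by
      apply hext
      · simp only [_root_.add_apply, _root_.smul_apply, smul_eq_mul]
        have : lam * (F h z - F g z) = F i z - F g z := by
          rw [hlam]; field_simp
        linarith
      · simp only [_root_.add_apply, _root_.smul_apply, smul_eq_mul,
          hF3 i hi, hF3 g hg, hF3 h hh]
        ring
      · simp only [_root_.add_apply, _root_.smul_apply, smul_eq_mul,
          hF2 i hi, hF2 g hg, hF2 h hh]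
        ring
    have hii := hF4 i hi
    rw [hcomb] at hii
    simp only [_root_.add_apply, _root_.smul_apply, smul_eq_mul] at hii
    have g1 := (hF1 g hg).2 i (hJK i hi)
    have g2 := (hF1 h hh).2 i (hJK i hi)
    by_cases hl : lam < 1
    · left
      apply le_antisymm g1
      by_contra hcon
      push Not at hcon
      nlinarith
    · right
      have hl' : lam = 1 := by linarith
      rw [hl'] at hii
      linarith

/-- the data of a primitive inner illuminating set -/
structure Conf (K : Set E) (I : Finset E) (x : E → E) : Prop where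
  aK : ∀ i ∈ I, i ∈ K
  xK : ∀ i ∈ I, x i ∈ K
  cof : ∀ i ∈ I, ∀ j ∈ I, i ≠ j → Cof K i (x j)
  ncof : ∀ i ∈ I, ¬ Cof K i (x i)

lemma Conf.mono {K : Set E} {I J : Finset E} {x : E → E} (h : Conf K I x) (hJ : J ⊆ I) :
    Conf K J x :=
  ⟨fun i hi => h.aK i (hJ hi), fun i hi => h.xK i (hJ hi),
    fun i hi j hj hij => h.cof i (hJ hi) j (hJ hj) hij, fun i hi => h.ncof i (hJ hi)⟩

lemma Cof.symm {K : Set E} {a x : E} (h : Cof K a x) : Cof K x a := by
  obtain ⟨f, M, hf, h1, h2⟩ := h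
  exact ⟨f, M, hf, h2, h1⟩

lemma Conf.x_inj {K : Set E} {I : Finset E} {x : E → E} (h : Conf K I x) {i j : E} (hi : i ∈ I)
    (hj : j ∈ I) (hij : i ≠ j) : x i ≠ x j := by
  intro he
  apply h.ncof i hi
  rw [he]
  exact h.cof i hi j hj hij

/-- no point of `I` lies strictly between two others -/
lemma Conf.not_between {K : Set E} {I : Finset E} {x : E → E} (h : Conf K I x) {i j k : E}
    (hi : i ∈ I) (hj : j ∈ I) (hk : k ∈ I) (hij : i ≠ j) {t : ℝ} (h0 : 0 < t) (h1 : t < 1)
    (he : j = (1 - t) • i + t • k) : False := by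
  obtain ⟨f, M, hf, hfj, hfx⟩ := h.cof j hj i hi hij.symm
  have e := hfj
  rw [he] at e
  simp only [map_add, map_smul, smul_eq_mul] at e
  have b1 := hf.2 i (h.aK i hi)
  have b2 := hf.2 k (h.aK k hk)
  have hfi : f i = M := by
    apply le_antisymm b1
    by_contra hcon
    push Not at hcon
    nlinarith
  exact h.ncof i hi ⟨f, M, hf, hfi, hfx⟩

lemma Conf.indep {K : Set E} {I : Finset E} {x : E → E} (h : Conf K I x) {i j k : E}
    (hi : i ∈ I) (hj : j ∈ I) (hk : k ∈ I) (hij : i ≠ j) (hik : i ≠ k) (hjk : j ≠ k) :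
    LinearIndependent ℝ ![j - i, k - i] := by
  rw [LinearIndependent.pair_iff]
  by_contra hcon
  push Not at hcon
  obtain ⟨s, t, hst, hne⟩ := hcon
  have hji : j - i ≠ 0 := sub_ne_zero.2 hij.symm
  have hki : k - i ≠ 0 := sub_ne_zero.2 hik.symm
  have ht : t ≠ 0 := by
    intro ht
    rw [ht, zero_smul, add_zero] at hst
    rcases smul_eq_zero.1 hst with h' | h'
    · exact hne h' ht
    · exact hji h'
  -- k - i = r • (j - i)
  obtain ⟨r, hr⟩ : ∃ r : ℝ, k - i = r • (j - i) := by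
    refine ⟨-(s / t), ?_⟩
    have : t • (k - i) = -(s • (j - i)) := by
      rw [eq_neg_iff_add_eq_zero, add_comm]; exact hst
    calc k - i = t⁻¹ • (t • (k - i)) := by rw [smul_smul, inv_mul_cancel₀ ht, one_smul]
      _ = -(s / t) • (j - i) := by
        rw [this, smul_neg, smul_smul, neg_smul, div_eq_inv_mul]
  have hk' : k = i + r • (j - i) := by rw [← hr]; abel
  have hr0 : r ≠ 0 := by
    rintro rfl
    rw [zero_smul] at hr
    exact hki hr
  have hr1 : r ≠ 1 := by
    rintro rfl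
    rw [one_smul] at hr
    exact hjk (sub_left_injective hr).symm
  rcases lt_or_gt_of_ne hr0 with hneg | hpos
  · -- i between j and k
    refine h.not_between hj hi hk hij.symm (t := 1 / (1 - r)) ?_ ?_ ?_
    · apply div_pos one_pos; linarith
    · rw [div_lt_one (by linarith)]; linarith
    · have h1r : (1 : ℝ) - r ≠ 0 := by linarith
      rw [hk']
      have e1 : (1 : ℝ) - 1 / (1 - r) = -(r / (1 - r)) := by field_simp; ring
      rw [e1]
      have e2 : (1 / (1 - r)) * r = r / (1 - r) := by ring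
      rw [smul_add, smul_smul, e2, smul_sub, neg_smul]
      have e3 : (1 / (1 - r) - r / (1 - r) : ℝ) = 1 := by field_simp
      calc i = (1 : ℝ) • i := (one_smul _ _).symm
        _ = (1 / (1 - r) - r / (1 - r)) • i := by rw [e3]
        _ = _ := by rw [sub_smul]; abel
  · rcases lt_or_gt_of_ne hr1 with hlt | hgt
    · -- k between i and j
      refine h.not_between hi hk hj hik (t := r) hpos hlt ?_
      rw [hk', smul_sub, sub_smul, one_smul]; abel
    · -- j between i and k
      refine h.not_between hi hj hk hij (t := 1 / r) (by positivity) ?_ ?_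
      · rw [div_lt_one hpos]; exact hgt
      · rw [hk', smul_add, smul_smul, one_div, inv_mul_cancel₀ hr0, one_smul, sub_smul, one_smul]
        abel

/-- a plane through three points of `I` in another plane is the same plane -/
lemma Conf.same_plane {K : Set E} {I : Finset E} {x : E → E} (h : Conf K I x) {i j k : E}
    (hi : i ∈ I) (hj : j ∈ I) (hk : k ∈ I) (hij : i ≠ j) (hik : i ≠ k) (hjk : j ≠ k)
    {f g : E →L[ℝ] ℝ} {M M' : ℝ} (hg : g ≠ 0)
    (fi : f i = M) (fj : f j = M) (fk : f k = M) (gi : g i = M') (gj : g j = M') (gk : g k = M')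
    {y : E} (gy : g y = M') : f y = M := by
  have hlin := h.indep hi hj hk hij hik hjk
  set S := Submodule.span ℝ (Set.range ![j - i, k - i]) with hS
  have hSfr : Module.finrank ℝ S = 2 := by
    have := finrank_span_eq_card hlin
    simpa using this
  have hle : S ≤ LinearMap.ker (g : E →ₗ[ℝ] ℝ) := by
    rw [hS, Submodule.span_le]
    rintro v ⟨m, rfl⟩
    fin_cases m
    · simp [gi, gj]
    · simp [gi, gk]
  have hker : Module.finrank ℝ (LinearMap.ker (g : E →ₗ[ℝ] ℝ)) = 2 := by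
    have h1 := LinearMap.finrank_range_add_finrank_ker (g : E →ₗ[ℝ] ℝ)
    have h2 : Module.finrank ℝ (LinearMap.range (g : E →ₗ[ℝ] ℝ)) = 1 := by
      have hne : (g : E →ₗ[ℝ] ℝ) ≠ 0 := by
        intro h0
        apply hg
        ext v
        exact congrArg (fun l : E →ₗ[ℝ] ℝ => l v) h0
      rw [LinearMap.range_eq_top.2 (LinearMap.surjective hne)]
      simp
    rw [h2] at h1
    have h3 : Module.finrank ℝ E = 3 := by simp
    omega
  have heq : S = LinearMap.ker (g : E →ₗ[ℝ] ℝ) :=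
    Submodule.eq_of_le_of_finrank_eq hle (by rw [hSfr, hker])
  have hy : y - i ∈ S := by
    rw [heq]
    simp [gi, gy]
  have hfS : S ≤ LinearMap.ker (f : E →ₗ[ℝ] ℝ) := by
    rw [hS, Submodule.span_le]
    rintro v ⟨m, rfl⟩
    fin_cases m
    · simp [fi, fj]
    · simp [fi, fk]
  have := hfS hy
  simp only [LinearMap.mem_ker, ContinuousLinearMap.coe_coe, map_sub, fi] at this
  linarith

/-- Lemma E -/
lemma Conf.card_le {K : Set E} (hint : (interior K).Nonempty) {I : Finset E} {x : E → E}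
    (h : Conf K I x) (k : ℕ)
    (hk : ∀ f M, Supp K f M → ∀ p ∈ I, ∀ q ∈ I, p ≠ q → f (x p) = M → f (x q) = M →
      ∀ J : Finset E, J ⊆ I → (∀ i ∈ J, f i = M) → J.card ≤ k) : I.card ≤ 8 + 6 * k := by
  classical
  by_contra hcon
  push Not at hcon
  obtain ⟨T, hTI, hT⟩ := Finset.exists_subset_card_eq (s := I) (n := 3) (by omega)
  obtain ⟨p1, p2, p3, h12, h13, h23, rfl⟩ := Finset.card_eq_three.1 hT
  have hp1 : p1 ∈ I := hTI (by simp)
  have hp2 : p2 ∈ I := hTI (by simp)
  have hp3 : p3 ∈ I := hTI (by simp)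
  obtain ⟨J0, hJ0def⟩ : ∃ J0 : Finset E, J0 = (I \ {p1, p2, p3}) \ {x p1, x p2, x p3} :=
    ⟨_, rfl⟩
  have hJ0 : I.card ≤ J0.card + 6 := by
    have h1 : I.card ≤ (I \ {p1, p2, p3}).card + 3 := by
      have := Finset.card_le_card_sdiff_add_card (s := I) (t := {p1, p2, p3})
      have h3 : ({p1, p2, p3} : Finset E).card ≤ 3 := Finset.card_le_three
      omega
    have h2 : (I \ {p1, p2, p3}).card ≤ J0.card + 3 := by
      rw [hJ0def]
      have := Finset.card_le_card_sdiff_add_card (s := I \ {p1, p2, p3})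
        (t := {x p1, x p2, x p3})
      have h3 : ({x p1, x p2, x p3} : Finset E).card ≤ 3 := Finset.card_le_three
      omega
    omega
  have hJ0I : J0 ⊆ I := by
    rw [hJ0def]; exact Finset.sdiff_subset.trans Finset.sdiff_subset
  let att : E → E → Finset E := fun p q => J0.filter
    (fun i => ∃ f M, Supp K f M ∧ f (x p) = M ∧ f (x q) = M ∧ f i = M)
  have hatt : ∀ p ∈ I, ∀ q ∈ I, p ≠ q → (att p q).card ≤ 2 * k := by
    intro p hp q hq hpq
    rcases (att p q).eq_empty_or_nonempty with he | hne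
    · rw [he]; simp
    have hsub : att p q ⊆ I := (Finset.filter_subset _ _).trans hJ0I
    obtain ⟨g, M, h', M', ⟨hg, hgp, hgq⟩, ⟨hh, hhp, hhq⟩, hcov⟩ :=
      lemmaD hint (h.x_inj hp hq hpq) (att p q) hne
        (fun i hi => h.aK i (hsub hi)) (fun i hi => (Finset.mem_filter.1 hi).2)
    have c1 : ((att p q).filter (fun i => g i = M)).card ≤ k :=
      hk g M hg p hp q hq hpq hgp hgq _ ((Finset.filter_subset _ _).trans hsub)
        (fun i hi => (Finset.mem_filter.1 hi).2)
    have c2 : ((att p q).filter (fun i => h' i = M')).card ≤ k :=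
      hk h' M' hh p hp q hq hpq hhp hhq _ ((Finset.filter_subset _ _).trans hsub)
        (fun i hi => (Finset.mem_filter.1 hi).2)
    have hun : att p q ⊆ (att p q).filter (fun i => g i = M) ∪
        (att p q).filter (fun i => h' i = M') := by
      intro i hi
      rcases hcov i hi with h1 | h1
      · exact Finset.mem_union_left _ (Finset.mem_filter.2 ⟨hi, h1⟩)
      · exact Finset.mem_union_right _ (Finset.mem_filter.2 ⟨hi, h1⟩)
    have := (Finset.card_le_card hun).trans (Finset.card_union_le _ _)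
    omega
  let U := J0 \ (att p1 p2 ∪ att p1 p3 ∪ att p2 p3)
  have hU : U.card ≤ 2 := by
    by_contra hU
    push Not at hU
    obtain ⟨S, hSU, hS⟩ := Finset.exists_subset_card_eq (s := U) (n := 3) (by omega)
    obtain ⟨u1, u2, u3, g12, g13, g23, rfl⟩ := Finset.card_eq_three.1 hS
    have hu : ∀ u, u ∈ ({u1, u2, u3} : Finset E) → u ∈ I ∧ u ≠ p1 ∧ u ≠ p2 ∧ u ≠ p3 ∧
        u ≠ x p1 ∧ u ≠ x p2 ∧ u ≠ x p3 ∧ (∀ p q, (p = p1 ∧ q = p2) ∨ (p = p1 ∧ q = p3) ∨
          (p = p2 ∧ q = p3) → ¬ ∃ f M, Supp K f M ∧ f (x p) = M ∧ f (x q) = M ∧ f u = M) := by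
      intro u hu
      have h1 := hSU hu
      have hJ : u ∈ J0 := (Finset.mem_sdiff.1 h1).1
      have hn : u ∉ att p1 p2 ∪ att p1 p3 ∪ att p2 p3 := (Finset.mem_sdiff.1 h1).2
      have hJ' := hJ
      simp only [hJ0def, Finset.mem_sdiff, Finset.mem_insert, Finset.mem_singleton, not_or] at hJ'
      obtain ⟨⟨hI, q1, q2, q3⟩, r1, r2, r3⟩ := hJ'
      refine ⟨hI, q1, q2, q3, r1, r2, r3, ?_⟩
      intro p q hpq hcon
      apply hn
      rw [Finset.mem_union, Finset.mem_union]
      rcases hpq with ⟨rfl, rfl⟩ | ⟨rfl, rfl⟩ | ⟨rfl, rfl⟩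
      · exact Or.inl (Or.inl (Finset.mem_filter.2 ⟨hJ, hcon⟩))
      · exact Or.inl (Or.inr (Finset.mem_filter.2 ⟨hJ, hcon⟩))
      · exact Or.inr (Finset.mem_filter.2 ⟨hJ, hcon⟩)
    have w1 := hu u1 (by simp)
    have w2 := hu u2 (by simp)
    have w3 := hu u3 (by simp)
    have hT' : ∀ m : Fin 3, ![p1, p2, p3] m ∈ I := by
      intro m; fin_cases m <;> assumption
    have hTne : ∀ m n : Fin 3, m ≠ n → ![p1, p2, p3] m ≠ ![p1, p2, p3] n := by
      intro m n hmn
      fin_cases m <;> fin_cases n <;> simp at hmn ⊢ <;>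
        first | assumption | (exact Ne.symm (by assumption))
    have hune : ∀ m n : Fin 3, m ≠ n → ![u1, u2, u3] m ≠ ![u1, u2, u3] n := by
      intro m n hmn
      fin_cases m <;> fin_cases n <;> simp at hmn ⊢ <;>
        first | assumption | (exact Ne.symm (by assumption))
    have huall : ∀ m : Fin 3, ![u1, u2, u3] m ∈ ({u1, u2, u3} : Finset E) := by
      intro m; fin_cases m <;> simp
    obtain ⟨i, i', j, j', hii, hjj, f, M, hf, e1, e2, e3, e4⟩ :=
      claimB (K := K) ![u1, u2, u3] (fun m => x (![p1, p2, p3] m))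
        (fun m n hmn => by
          by_contra hne
          exact hune m n hne hmn)
        (fun m n hmn => by
          by_contra hne
          exact h.x_inj (hT' m) (hT' n) (hTne m n hne) hmn)
        (fun m n => by
          have := hu _ (huall m)
          fin_cases n
          · exact this.2.2.2.2.1
          · exact this.2.2.2.2.2.1
          · exact this.2.2.2.2.2.2.1)
        (fun m => h.aK _ (hu _ (huall m)).1)
        (fun m => h.xK _ (hT' m))
        (fun m n => by
          have := hu _ (huall m)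
          apply h.cof _ this.1 _ (hT' n)
          fin_cases n
          · exact this.2.1
          · exact this.2.2.1
          · exact this.2.2.2.1)
    have hcontr := (hu _ (huall i)).2.2.2.2.2.2.2
    -- the pair j, j'
    have hpair : ∃ m n : Fin 3, ((m = 0 ∧ n = 1) ∨ (m = 0 ∧ n = 2) ∨ (m = 1 ∧ n = 2)) ∧
        f (x (![p1, p2, p3] m)) = M ∧ f (x (![p1, p2, p3] n)) = M := by
      have : (∃ m n : Fin 3, ((m = 0 ∧ n = 1) ∨ (m = 0 ∧ n = 2) ∨ (m = 1 ∧ n = 2)) ∧
          ((m = j ∧ n = j') ∨ (m = j' ∧ n = j))) := by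
        clear e3 e4
        revert j j'; decide
      obtain ⟨m, n, hmn, hj⟩ := this
      refine ⟨m, n, hmn, ?_⟩
      rcases hj with ⟨rfl, rfl⟩ | ⟨rfl, rfl⟩
      · exact ⟨e3, e4⟩
      · exact ⟨e4, e3⟩
    obtain ⟨m, n, hmn, f1, f2⟩ := hpair
    rcases hmn with ⟨rfl, rfl⟩ | ⟨rfl, rfl⟩ | ⟨rfl, rfl⟩
    · exact hcontr p1 p2 (Or.inl ⟨rfl, rfl⟩) ⟨f, M, hf, f1, f2, e1⟩
    · exact hcontr p1 p3 (Or.inr (Or.inl ⟨rfl, rfl⟩)) ⟨f, M, hf, f1, f2, e1⟩
    · exact hcontr p2 p3 (Or.inr (Or.inr ⟨rfl, rfl⟩)) ⟨f, M, hf, f1, f2, e1⟩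
  have hcard : J0.card ≤ U.card + (att p1 p2 ∪ att p1 p3 ∪ att p2 p3).card :=
    Finset.card_le_card_sdiff_add_card
  have hc1 := Finset.card_union_le (att p1 p2 ∪ att p1 p3) (att p2 p3)
  have hc2 := Finset.card_union_le (att p1 p2) (att p1 p3)
  have a1 := hatt p1 hp1 p2 hp2 h12
  have a2 := hatt p1 hp1 p3 hp3 h13
  have a3 := hatt p2 hp2 p3 hp3 h23
  omega

lemma Conf.card_le' {K : Set E} (hint : (interior K).Nonempty) {I : Finset E} {x : E → E}
    (h : Conf K I x) : I.card ≤ 128 := by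
  apply h.card_le hint 20
  intro f M hf p _ q _ _ _ _ J hJI hJ
  have h' := h.mono hJI
  apply h'.card_le hint 2
  intro g M' hg p' hp' q' hq' hpq' gp gq J' hJ'J hJ'
  by_contra hcon
  push Not at hcon
  obtain ⟨S, hSJ, hS⟩ := Finset.exists_subset_card_eq (s := J') (n := 3) (by omega)
  obtain ⟨u1, u2, u3, g12, g13, g23, rfl⟩ := Finset.card_eq_three.1 hS
  have m1 : u1 ∈ J' := hSJ (by simp)
  have m2 : u2 ∈ J' := hSJ (by simp)
  have m3 : u3 ∈ J' := hSJ (by simp)
  have key := h'.same_plane (hJ'J m1) (hJ'J m2) (hJ'J m3) g12 g13 g23 hg.1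
    (hJ _ (hJ'J m1)) (hJ _ (hJ'J m2)) (hJ _ (hJ'J m3)) (hJ' _ m1) (hJ' _ m2) (hJ' _ m3) gp
  exact h'.ncof p' hp' ⟨f, M, hf, hJ p' hp', key⟩

theorem main {K : Set E} (hK : IsCompact K) (hc : Convex ℝ K) (hi : (interior K).Nonempty)
    (A : Set E)
    (hA : A ⊆ frontier K ∧ ∀ x ∈ frontier K, ∃ a ∈ A, ∃ ε : ℝ, 0 < ε ∧ ε < 1 ∧
            (1 - ε) • x + ε • a ∈ interior K)
    (hp : ∀ B : Set E, B ⊆ A → B ≠ A →
          ¬ (B ⊆ frontier K ∧
            ∀ x ∈ frontier K, ∃ b ∈ B, ∃ ε : ℝ, 0 < ε ∧ ε < 1 ∧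
              (1 - ε) • x + ε • b ∈ interior K)) :
    A.encard ≤ (128 : ℕ) := by
  classical
  have hfr : frontier K ⊆ K := hK.isClosed.frontier_subset
  have hx : ∀ a ∈ A, ∃ y ∈ frontier K, (∀ b ∈ A, b ≠ a → ¬ ∃ ε : ℝ, 0 < ε ∧ ε < 1 ∧
      (1 - ε) • y + ε • b ∈ interior K) ∧ ∃ ε : ℝ, 0 < ε ∧ ε < 1 ∧
      (1 - ε) • y + ε • a ∈ interior K := by
    intro a ha
    have h1 := hp (A \ {a}) Set.sdiff_subset (by
      intro he
      have : a ∈ A \ {a} := by rw [he]; exact ha
      exact this.2 rfl)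
    rw [not_and] at h1
    have h2 := h1 (Set.sdiff_subset.trans hA.1)
    push Not at h2
    obtain ⟨y, hy, h3⟩ := h2
    refine ⟨y, hy, ?_, ?_⟩
    · rintro b hb hba ⟨ε, e0, e1, e2⟩
      exact h3 b ⟨hb, hba⟩ ε e0 e1 e2
    · obtain ⟨b, hb, ε, e0, e1, e2⟩ := hA.2 y hy
      by_cases hba : b = a
      · subst hba; exact ⟨ε, e0, e1, e2⟩
      · exact absurd e2 (h3 b ⟨hb, hba⟩ ε e0 e1)
  choose! x hx1 hx2 hx3 using hx
  by_contra hcon
  push Not at hcon
  have h129 : ((129 : ℕ) : ℕ∞) ≤ A.encard := by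
    have := Order.add_one_le_of_lt hcon
    exact_mod_cast this
  obtain ⟨t, htA, ht⟩ := Set.exists_subset_encard_eq h129
  have htfin : t.Finite := Set.finite_of_encard_eq_coe ht
  have hcard : htfin.toFinset.card = 129 := by
    have := htfin.encard_eq_coe_toFinset_card
    rw [ht] at this
    exact_mod_cast this.symm
  have hconf : Conf K htfin.toFinset x := by
    have hmem : ∀ i ∈ htfin.toFinset, i ∈ A := fun i hi => htA (htfin.mem_toFinset.1 hi)
    refine ⟨fun i hi => hfr (hA.1 (hmem i hi)), fun i hi => hfr (hx1 i (hmem i hi)), ?_, ?_⟩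
    · intro i hi' j hj hij
      exact cof_of_not hc hi (hfr (hA.1 (hmem i hi'))) (hfr (hx1 j (hmem j hj)))
        (hx2 j (hmem j hj) i (hmem i hi') hij)
    · intro i hi'
      exact not_cof_of (hx3 i (hmem i hi'))
  have := hconf.card_le' hi
  omega

end Pool.Agent.W586.Illum
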